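import Pool.Agent.Y630.TF.Transfer

/-! Simplified literals are constants or input bits. -/

set_option autoImplicit false
set_option linter.unusedSectionVars false
set_option linter.unusedVariables false

namespace Pool.Agent.Y630.TR

open Finset Pool.Agent.Y630.TF

/-- the literals as functions of the new inputs -/
def lsb {L X : Type} (σ : L → Option X) (c : L → Bool) (y : X → Bool) : L → Bool :=
  fun l => (σ l).elim (c l) y

variable {E X G : Type} [Fintype E] [DecidableEq E] [Fintype X] [DecidableEq X] [Fintype G]
  [DecidableEq G] [AddCommGroup G]

/-- the literals are constants or input bits -/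
lemma rlit_lsb (slot : X × G ↪ E) (base : E → Bool) (τ : X → G) :
    ∃ (σ : E × Bool → Option X) (c : E × Bool → Bool), ∀ y, rlit slot base τ y = lsb σ c y := by
  classical
  set σ : E × Bool → Option X := fun eb =>
    if h : eb.2 = true ∧ base eb.1 = false ∧ ∃ x, slot (x, τ x) = eb.1 then
    some (Classical.choose h.2.2) else none with hσ
  refine ⟨σ, fun eb => rlit slot base τ (fun _ => false) eb, fun y => ?_⟩
  funext ⟨e, b⟩
  unfold lsb
  rcases b with _ | _
  · have hs : σ (e, false) = none := dif_neg (fun h => absurd h.1 (by simp))
    rw [hs]
    rfl
  · have hr : ∀ y', rlit slot base τ y' (e, true) = host slot base τ y' e := fun y' => if_pos rfl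
    by_cases hb : base e = true
    · have h1 : ∀ y', host slot base τ y' e = true := fun y' => host_true.mpr (Or.inl hb)
      have hs : σ (e, true) = none := dif_neg (fun h => by
        have h2 : base e = false := h.2.1
        rw [hb] at h2
        exact absurd h2 (by simp))
      rw [hs]
      simp only [Option.elim_none]
      rw [hr, hr, h1, h1]
    · have hb' : base e = false := by simpa using hb
      by_cases hx : ∃ x, slot (x, τ x) = e
      · have hc : (e, true).2 = true ∧ base (e, true).1 = false ∧ ∃ x, slot (x, τ x) = (e, true).1 :=
          ⟨rfl, hb', hx⟩
        have h0 : slot (Classical.choose hc.2.2, τ (Classical.choose hc.2.2)) = e :=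
          Classical.choose_spec hc.2.2
        have hs : σ (e, true) = some (Classical.choose hc.2.2) := dif_pos hc
        rw [hs, hr]
        simp only [Option.elim_some]
        rw [Bool.eq_iff_iff, host_true]
        constructor
        · rintro (h | ⟨x, h1, h2⟩)
          · exact absurd h hb
          · have h3 := slot.injective (h2.trans h0.symm)
            have h4 : x = Classical.choose hc.2.2 := (Prod.mk.inj h3).1
            rw [← h4]
            exact h1
        · intro h
          exact Or.inr ⟨_, h, h0⟩
      · have hs : σ (e, true) = none := dif_neg (fun h => hx h.2.2)
        rw [hs]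
        simp only [Option.elim_none]
        rw [hr, hr]
        have h1 : ∀ y', host slot base τ y' e = false := by
          intro y'
          rw [← Bool.not_eq_true, host_true]
          rintro (h | ⟨x, h2, h3⟩)
          · exact hb h
          · exact hx ⟨x, h3⟩
        rw [h1, h1]

end Pool.Agent.Y630.TR
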